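import Pool.Agent.H692R2.FinGraph
import Pool.Agent.H671R2.PolyAuto

/-!
# Finite graphs given by a list of labels and an adjacency test for labels
-/

namespace Pool.Agent.Q324.Lab

open Pool.Agent.NPC Pool.Agent.H692R2

/-- the symmetric irreflexive closure of a test -/
def sym {Λ : Type} [DecidableEq Λ] (ad : Λ → Λ → Bool) (a b : Λ) : Bool :=
  !decide (a = b) && (ad a b || ad b a)

theorem sym_iff {Λ : Type} [DecidableEq Λ] (ad : Λ → Λ → Bool) (a b : Λ) :
    sym ad a b = true ↔ a ≠ b ∧ (ad a b = true ∨ ad b a = true) := by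
  simp [sym]

/-- The graph on `Fin vs.length` whose vertex `i` has the label `vs[i]`. -/
def lgraph {Λ : Type} [DecidableEq Λ] (vs : List Λ) (ad : Λ → Λ → Bool) :
    SimpleGraph (Fin vs.length) where
  Adj i j := sym ad vs[i] vs[j] = true
  symm := ⟨fun i j h => by
    rw [sym_iff] at h ⊢
    exact ⟨h.1.symm, h.2.symm⟩⟩
  loopless := ⟨fun i h => by
    rw [sym_iff] at h
    exact h.1 rfl⟩

/-- The finite graph given by labels. -/
def labGraph {Λ : Type} [DecidableEq Λ] (vs : List Λ) (ad : Λ → Λ → Bool) : FinGraph :=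
  ⟨vs.length, lgraph vs ad⟩

theorem labGraph_matrix {Λ : Type} [DecidableEq Λ] (vs : List Λ) (ad : Λ → Λ → Bool) :
    (labGraph vs ad).matrix = vs.map (fun u => vs.map (fun w => sym ad u w)) := by
  classical
  unfold FinGraph.matrix labGraph lgraph
  apply List.ext_getElem
  · simp
  · intro i h1 h2
    simp only [List.getElem_ofFn, List.getElem_map]
    apply List.ext_getElem
    · simp
    · intro j h3 h4
      simp

theorem poly_labGraph {α Λ : Type} [TEnc α] [TEnc Λ] [DecidableEq Λ] {vs : α → List Λ}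
    {ad : α → Λ → Λ → Bool} (hv : Poly vs)
    (ha : Poly (fun p : (α × Λ) × Λ => ad p.1.1 p.1.2 p.2)) :
    Poly (fun a => labGraph (vs a) (ad a)) := by
  have ha' : Poly (fun p : (α × Λ) × Λ => ad p.1.1 p.2 p.1.2) :=
    ha.comp (Poly.pair (Poly.pair (Poly.fst (Poly.fst Poly.id)) (Poly.snd Poly.id))
      (Poly.snd (Poly.fst Poly.id)))
  have h1 : Poly (fun p : (α × Λ) × Λ => sym (ad p.1.1) p.1.2 p.2) := by
    unfold sym
    exact Poly.and (Poly.not (Poly.decide_eq (Poly.snd (Poly.fst Poly.id)) (Poly.snd Poly.id)))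
      (Poly.or ha ha')
  have h2 : Poly (fun a => (vs a).map (fun u => (vs a).map (fun w => sym (ad a) u w))) := by
    refine NPC.Poly.map (F := fun a u => (vs a).map (fun w => sym (ad a) u w)) hv ?_
    exact NPC.Poly.map (l := fun p : α × Λ => vs p.1) (F := fun p w => sym (ad p.1) p.2 w)
      (hv.comp (NPC.Poly.fst NPC.Poly.id)) h1
  have h3 : Poly (fun a => (labGraph (vs a) (ad a)).matrix) :=
    h2.congr fun a => (labGraph_matrix (vs a) (ad a)).symm
  exact h3

/-- A graph whose vertices are coded by the labels. -/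
theorem labIso {V Λ : Type} [DecidableEq Λ] {vs : List Λ} {ad : Λ → Λ → Bool}
    (G : SimpleGraph V) (hn : vs.Nodup) (c : V → Λ) (hc : Function.Injective c)
    (hmem : ∀ z, z ∈ vs ↔ ∃ x, c x = z)
    (hadj : ∀ x y, G.Adj x y ↔ c x ≠ c y ∧ (ad (c x) (c y) = true ∨ ad (c y) (c x) = true)) :
    Nonempty ((labGraph vs ad).graph ≃g G) := by
  obtain ⟨e, he⟩ := R671.exists_equiv vs hn c hc hmem
  have key : ∀ i j : Fin vs.length, G.Adj (e i) (e j) ↔ (lgraph vs ad).Adj i j := by
    intro i j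
    rw [hadj, he, he]
    exact (sym_iff ad _ _).symm
  exact ⟨⟨e, fun {i j} => key i j⟩⟩

end Pool.Agent.Q324.Lab
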